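import Pool.Agent.H.MP_08099c_gt.B

set_option autoImplicit false

namespace Pool.Agent.Results.MP_08099c_gt.Yes

open Real

def Monodromy (X Y : ℝ → ℝ) (T l : ℝ) (M : Matrix (Fin 2) (Fin 2) ℝ) : Prop :=
  M.det = 1 ∧ ∀ θ : ℝ → ℝ, Differentiable ℝ θ →
    (∀ t, l * deriv θ t = deriv X t * (-sin (θ t)) + deriv Y t * cos (θ t)) →
    ∃ r : ℝ, M.mulVec ![cos (θ 0 / 2), sin (θ 0 / 2)] = r • ![cos (θ T / 2), sin (θ T / 2)]

theorem result (X Y : ℝ → ℝ) (T : ℝ) (hT : 0 < T) (hX : ContDiff ℝ 2 X) (hY : ContDiff ℝ 2 Y)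
    (reg : ∀ t, 0 < deriv X t ^ 2 + deriv Y t ^ 2)
    (pX : Function.Periodic X T) (pY : Function.Periodic Y T)
    (cvx : (∀ t s, t < s → s < t + T → 0 < deriv X t * (Y s - Y t) - deriv Y t * (X s - X t)) ∨
      (∀ t s, t < s → s < t + T → deriv X t * (Y s - Y t) - deriv Y t * (X s - X t) < 0)) :
    ∃ l₀ > 0, ∀ l > 0, (∃ M, Monodromy X Y T l M) ∧ ∀ M, Monodromy X Y T l M →
      (l < l₀ → 2 < |M.trace|) ∧ (l₀ < l → |M.trace| < 2) := by
  have key : ∀ Y : ℝ → ℝ, ContDiff ℝ 2 Y → (∀ t, 0 < deriv X t ^ 2 + deriv Y t ^ 2) →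
      Function.Periodic Y T →
      (∀ t s, t < s → s < t + T → 0 < deriv X t * (Y s - Y t) - deriv Y t * (X s - X t)) →
      ∃ l₀ > 0, ∀ l > 0, (∃ M, Monodromy X Y T l M) ∧ ∀ M, Monodromy X Y T l M →
        (l < l₀ → 2 < |M.trace|) ∧ (l₀ < l → |M.trace| < 2) := by
    intro Y hY reg pY cvx
    obtain ⟨v, φ, κ, K⟩ := H.MP_b4625f_gt.mkTrack hT hX hY reg pX pY cvx
    obtain ⟨l₀, h0, h⟩ := H.MP_08099c_gt.main K
    have eqv : ∀ l > 0, ∀ θ : ℝ → ℝ, H.MP_b4625f_gt.Sol v φ l (fun t => θ t + π) ↔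
        (Differentiable ℝ θ ∧
          ∀ t, l * deriv θ t = deriv X t * (-sin (θ t)) + deriv Y t * cos (θ t)) := by
      intro l hl θ
      have e : ∀ t, v t * sin (θ t + π - φ t) / l
          = (deriv X t * (-sin (θ t)) + deriv Y t * cos (θ t)) / l := fun t => by
        rw [(K.hX t).deriv, (K.hY t).deriv, sin_sub, sin_add_pi, cos_add_pi]; ring
      constructor
      · intro s
        have d : ∀ t, HasDerivAt θ (v t * sin (θ t + π - φ t) / l) t := fun t =>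
          (hasDerivAt_add_const_iff π).1 (s t)
        exact ⟨fun t => (d t).differentiableAt, fun t => by
          rw [(d t).deriv, e, mul_div_cancel₀ _ hl.ne']⟩
      · rintro ⟨d, o⟩ t
        refine ((d t).hasDerivAt.add_const π).congr_deriv ?_
        rw [e, ← o, mul_div_cancel_left₀ _ hl.ne']
    refine ⟨l₀, h0, fun l hl => ⟨?_, fun M hM => ?_⟩⟩
    · obtain ⟨a, b, c, d, h1, h2⟩ := H.MP_08099c_gt.act_ex K hl
      refine ⟨!![a, b; c, d], by rw [Matrix.det_fin_two_of]; exact h1, fun θ dθ o => ?_⟩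
      obtain ⟨r, -, e1, e2⟩ := h2 θ ((eqv l hl θ).2 ⟨dθ, o⟩)
      refine ⟨r, ?_⟩
      ext i
      fin_cases i
      · simpa [Matrix.mulVec, dotProduct, Fin.sum_univ_two] using e1
      · simpa [Matrix.mulVec, dotProduct, Fin.sum_univ_two] using e2
    · rw [Matrix.trace_fin_two]
      refine h l hl (M 0 0) (M 0 1) (M 1 0) (M 1 1) ⟨by rw [← Matrix.det_fin_two]; exact hM.1,
        fun θ s => ?_⟩
      obtain ⟨r, e⟩ := hM.2 θ ((eqv l hl θ).1 s).1 ((eqv l hl θ).1 s).2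
      refine ⟨r, trivial, ?_, ?_⟩
      · simpa [Matrix.mulVec, dotProduct, Fin.sum_univ_two] using congrFun e 0
      · simpa [Matrix.mulVec, dotProduct, Fin.sum_univ_two] using congrFun e 1
  rcases cvx with cvx | cvx
  · exact key Y hY reg pY cvx
  have refl : ∀ (Y : ℝ → ℝ) (l : ℝ) (M : Matrix (Fin 2) (Fin 2) ℝ), Monodromy X Y T l M →
      Monodromy X (fun t => -Y t) T l !![M 0 0, -M 0 1; -M 1 0, M 1 1] := by
    rintro Y l M ⟨h1, h2⟩
    refine ⟨by rw [Matrix.det_fin_two_of, ← h1, Matrix.det_fin_two]; ring, fun θ dθ o => ?_⟩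
    obtain ⟨r, e⟩ := h2 (fun t => -θ t) dθ.neg fun t => by
      have := o t
      simp only [deriv.fun_neg, sin_neg, cos_neg] at this ⊢
      linarith
    have e0 := congrFun e 0
    have e1 := congrFun e 1
    simp [Matrix.mulVec, dotProduct, Fin.sum_univ_two, neg_div] at e0 e1
    refine ⟨r, ?_⟩
    ext i
    fin_cases i
    · simp [Matrix.mulVec, dotProduct, Fin.sum_univ_two]; linarith
    · simp [Matrix.mulVec, dotProduct, Fin.sum_univ_two]; linarith
  obtain ⟨l₀, h0, h⟩ := key (fun t => -Y t) hY.neg (fun t => by simpa using reg t)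
    (fun t => by simp only [pY t]) fun t s h1 h2 => by
      have := cvx t s h1 h2
      simp only [deriv.fun_neg]; linarith
  refine ⟨l₀, h0, fun l hl => ⟨?_, fun M hM => ?_⟩⟩
  · obtain ⟨M, hM⟩ := (h l hl).1
    exact ⟨_, by simpa using refl _ l M hM⟩
  · have := (h l hl).2 _ (refl Y l M hM)
    rwa [Matrix.trace_fin_two_of, ← Matrix.trace_fin_two] at this

end Pool.Agent.Results.MP_08099c_gt.Yes
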